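import Pool.Agent.Q105.FJ.CDet

/-!
# Gluing along subgroups that are central in a quotient of one side

`Closed C` (`Pool.Agent.Y462.SS.Base`): the class `C` of groups contains `ℤ` and is closed under
groups that embed, finite products, free products, overgroups of finite index and colimits of directed
systems with arbitrary structure maps.  `ExtClosed C` (`Pool.Agent.Q152.WP.Perm`): if `G` maps onto a
group `Q` of `C`, and the kernel and the preimages of all infinite cyclic subgroups of `Q` are in `C`,
then `G` is in `C`.  All these properties are known for the class of the groups which satisfy the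
K- and L-theoretic Farrell–Jones conjecture with coefficients in additive categories (with
involution) and finite wreath products; for a torsion-free group `π` of this class the assembly map
`L_*(Bπ) → L_*(ℤπ)` is an isomorphism for all orientation characters.

`CDet C ψ`: the homomorphism `ψ : H → B` is centrally detected, i.e. some homomorphism `f` from `B` to a
group `M` is injective on `H` and maps `H` onto a central subgroup of `M` such that the quotient is
in `C`.  `Amg i ψ` is the amalgamated product of `G` and `B` over `H` (with embeddings `i` and `ψ`).

The main example is `B = π₁(Σ) × ℤ^k` for a surface `Σ` of positive genus with one boundary component,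
and `H = π₁(∂Σ) × ℤ^k`: the fundamental group of the boundary of the aspherical manifold
`Σ × T^k` is central in a nilpotent quotient.  So all boundary components of any compact aspherical
manifold with boundary a union of (incompressible) tori may be closed by copies of `Σ × T^k`, one
after the other.

Proof.  The amalgamated product of `G` and `M` over `H` is in `C` by `MP_c052b4_al/AmalgamsOverNormal`
of this team.  The amalgamated product of `G` and `B` maps to it, and the map is injective on
`G`; therefore it is in `C` by `MP_2a0850_gt/EdgeInjective`.
-/

set_option autoImplicit false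

namespace Pool.Agent.Results.MP_c13a79_gt.CentralBoundary

open Monoid Pool.Agent.Y462.SS Pool.Agent.Q152.WP Pool.Agent.Q105.FJ

/-- the group is torsion-free -/
def TorsionFree (G : Type) [Group G] : Prop := ∀ u : G, IsOfFinOrder u → u = 1

/-- Amalgamated products over a subgroup which is centrally detected in one factor; no condition on the
other factor. -/
def Gluing (C : ∀ (G : Type) [Group G], Prop) : Prop :=
  ∀ (H G B : Type) [Group H] [Group G] [Group B] (i : H →* G) (ψ : H →* B),
    Function.Injective i → CDet C ψ → C G → C B →
      C (Amg i ψ) ∧ Function.Injective (kG i ψ) ∧ Function.Injective (kB i ψ) ∧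
        (TorsionFree G → TorsionFree B → TorsionFree (Amg i ψ))

/-- Examples: subgroups which embed in the abelianization; abelian groups in themselves; cyclic
subgroups of free groups (such as the boundary curve of a surface of positive genus). -/
def Examples (C : ∀ (G : Type) [Group G], Prop) : Prop :=
  (∀ (H B : Type) [Group H] [Group B] (ψ : H →* B),
    Function.Injective (Abelianization.of.comp ψ) → CDet C ψ) ∧
  (∀ (H : Type) [CommGroup H], CDet C (MonoidHom.id H)) ∧
  (∀ (α : Type) (v : FreeGroup α), v ≠ 1 → CDet C (zpowersHom (FreeGroup α) v))

/-- Rules: composition with a homomorphism of the factor, and products. -/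
def Rules (C : ∀ (G : Type) [Group G], Prop) : Prop :=
  (∀ (H B B' : Type) [Group H] [Group B] [Group B'] (ψ : H →* B) (g : B →* B'),
    CDet C (g.comp ψ) → CDet C ψ) ∧
  (∀ (H B H' B' : Type) [Group H] [Group B] [Group H'] [Group B'] (ψ : H →* B) (ψ' : H' →* B'),
    CDet C ψ → CDet C ψ' → CDet C (ψ.prodMap ψ'))

/-- If two subgroups `H₁` and `H₂` of `B` are jointly detected (for example the groups of two boundary
curves of a surface of positive genus), the second is still detected after gluing any group `G` along
the first. -/
def NextGluing (C : ∀ (G : Type) [Group G], Prop) : Prop :=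
  ∀ (H₁ H₂ B G : Type) [Group H₁] [Group H₂] [Group B] [Group G] (ψ₁ : H₁ →* B) (ψ₂ : H₂ →* B)
    (i : H₁ →* G), JDet C ψ₁ ψ₂ → CDet C ((kB i ψ₁).comp ψ₂)

/-- **Gluing along centrally detected subgroups.** -/
theorem result (C : ∀ (G : Type) [Group G], Prop) (hC : Closed C) (hE : ExtClosed C) :
    Gluing C ∧ Examples C ∧ Rules C ∧ NextGluing C :=
  ⟨fun _ _ _ _ _ _ _ _ hi hψ hG hB => ⟨amg_mem hC hE hi hψ hG hB, kG_injective hi hψ.inj,
      kB_injective hi hψ.inj, fun h h' => amg_tf hi hψ.inj h h'⟩,
    ⟨fun _ _ _ _ _ h => CDet.of_ab hC h, fun _ _ => CDet.id hC, fun _ v hv => CDet.free hC hE v hv⟩,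
    ⟨fun _ _ _ _ _ _ _ g h => CDet.comp g h, fun _ _ _ _ _ _ _ _ _ _ h h' => CDet.prod hC h h'⟩,
    fun _ _ _ _ _ _ _ _ _ _ i h => h.glue i⟩

end Pool.Agent.Results.MP_c13a79_gt.CentralBoundary
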