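import Pool.Agent.Q143.SL.Stm

/-!
# The Farrell–Jones conjecture for semilinear groups over rings with one place at infinity

`Closed C` (`Pool.Agent.Y462.SS.Base`): the class `C` of groups contains `ℤ` and is closed under
groups that embed, finite products, free products, overgroups of finite index and colimits of directed
systems.  `ExtClosed C` (`Pool.Agent.Q152.WP.Perm`): if `G` maps onto a group `Q` of `C`, and the
kernel and the preimages of all infinite cyclic subgroups of `Q` are in `C`, then `G` is in `C`.  These
properties, and the fact that `C` contains the solvable groups, are known for the class of the groups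
which satisfy the `K`- and `L`-theoretic Farrell–Jones conjecture with coefficients in additive categories and
finite wreath products.

`DegFun deg` (`Pool.Agent.Q143.BT.Deg`): the function `deg : A → ℕ` on the domain `A` satisfies
`deg (a * b) = deg a + deg b` and `deg (a + b) ≤ max (deg a) (deg b)` for nonzero arguments.

From `Pool.Agent.Q143.SL`: for a group `Λ` that acts on the ring `A` by `τ : Λ → Aut(A)`, `SemiGL τ` is
the semidirect product `GL_2(A) ⋊ Λ`, `Λ` acting on the entries of the matrices. `DegAct deg τ m`: `deg`
is a degree function on `A` preserved by `τ`, and `m` is an invariant ideal all of whose nonzero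
elements have positive degree. `KerCong m Γ f`: the kernel of `f` consists of matrices congruent to `1`
modulo `m`. `LinAct τ δ`: `τ` is an action on the polynomial ring `D[t_s, s ∈ S]` which is `δ` on the
constants and maps each variable to a homogeneous polynomial of degree `1`.
-/

set_option autoImplicit false

namespace Pool.Agent.Results.MP_c13a79_gt.SemilinearGroups

open Pool.Agent.Y462.SS Pool.Agent.Q152.WP Pool.Agent.Q143.BT Pool.Agent.Q143.SL

/-- Let `C` be a class of groups with the closure properties `Closed C` and `ExtClosed C` that
contains the solvable groups.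

(1) Let `A` be a commutative domain with a degree function, `Λ` a group of `C` that acts on `A` by
ring automorphisms which preserve the degree, `m` a `Λ`-invariant ideal of `A` all of whose nonzero
elements have positive degree, and `Γ` a subgroup of `GL_2(A) ⋊ Λ`. If `f` is a homomorphism from
`Γ` to a group of `C` whose kernel consists of matrices congruent to `1` modulo `m`, then `Γ` is
in `C`.

(2) Let `D` be a commutative domain, and let the group `Λ` act on `D` and on the polynomial ring
`D[t_s, s ∈ S]`, compatibly and so that every variable is mapped to a linear form. Then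
`GL_2(D[t_s, s ∈ S]) ⋊ Λ` is in `C` if and only if `GL_2(D) ⋊ Λ` is. -/
theorem result (C : ∀ (G : Type) [Group G], Prop) (hC : Closed C) (hE : ExtClosed C)
    (hS : ∀ (G : Type) [Group G], Group.IsSolvable G → C G) :
    (∀ (A Λ : Type) [CommRing A] [IsDomain A] [Group Λ] (deg : A → ℕ) (τ : Λ →* RingAut A)
      (m : Ideal A), DegAct deg τ m → C Λ →
      ∀ (Γ : Subgroup (SemiGL τ)) (Q : Type) [Group Q] (f : Γ →* Q), C Q → KerCong m Γ f → C Γ) ∧
    ∀ (S D Λ : Type) [CommRing D] [IsDomain D] [Group Λ] (τ : Λ →* RingAut (MvPolynomial S D))
      (δ : Λ →* RingAut D), LinAct τ δ → (C (SemiGL τ) ↔ C (SemiGL δ)) :=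
  ⟨fun _ _ _ _ _ _ _ _ h hΛ Γ _ _ f hQ hf => semi_deg hC hE hS h hΛ Γ f hQ hf,
    fun _ _ _ _ _ _ _ _ h => semi_iff hC hE hS h⟩

end Pool.Agent.Results.MP_c13a79_gt.SemilinearGroups
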