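import Pool.Agent.Q143.UG.Mv

/-!
# The Farrell–Jones conjecture for isometry groups of forms of Witt index one over polynomial rings

`Closed C` (`Pool.Agent.Y462.SS.Base`): the class `C` of groups contains `ℤ` and is closed under
groups that embed, finite products, free products, overgroups of finite index and colimits of directed
systems.  `ExtClosed C` (`Pool.Agent.Q152.WP.Perm`): if `G` maps onto a group `Q` of `C`, and the
kernel and the preimages of all infinite cyclic subgroups of `Q` are in `C`, then `G` is in `C`.  These
properties, and the fact that `C` contains the solvable groups, are known for the class of the groups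
which satisfy the `K`- and `L`-theoretic Farrell–Jones conjecture with coefficients in additive
categories and finite wreath products.

Definitions of `Pool.Agent.Q143.UG`, for a commutative ring `R` with a ring endomorphism `σ`:
* `UG σ N` is the group of the invertible matrices `g` with `σ(g)ᵀ N g = N`, the isometry group of the
  sesquilinear form with the Gram matrix `N`;
* `hyp M` is the Gram matrix of the orthogonal sum of a hyperbolic plane and the form with the
  Gram matrix `M`;
* `Aniso σ M`: `∑ σ(y_a) M_ab y_b = 0` only for `y = 0`;
* `sM σ n` is `σ` on the coefficients of `R[t_1, …, t_n]`, `MM M n` is `M` as a matrix over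
  `R[t_1, …, t_n]`, and `evM σ M x` is the specialisation `t_i ↦ x_i` of isometries, for a point `x`
  fixed by `σ`.
-/

set_option autoImplicit false

namespace Pool.Agent.Results.MP_c13a79_gt.WittIndexOne

open Pool.Agent.Y462.SS Pool.Agent.Q152.WP Pool.Agent.Q143.UG

/-- Let `C` be a class of groups with the closure properties `Closed C` and `ExtClosed C` that
contains the solvable groups. Let `R` be a commutative domain with `2 ≠ 0` and an automorphism `σ` with
`σ ^ 2 = 1` (`σ = 1` is allowed), `M` a hermitian matrix over `R` of positive size whose form is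
anisotropic, and `U(R[t_1, …, t_n])` the isometry group, over the polynomial ring, of the orthogonal
sum of a hyperbolic plane and this form.

(1) If `Γ` is a subgroup of `U(R[t_1, …, t_n])` and for some point `x` with coordinates fixed
by `σ` the group `Γ(x) ≤ U(R)` is in `C`, then `Γ` is in `C`.

(2) `U(R[t_1, …, t_n])` is in `C` if and only if `U(R)` is in `C`. -/
theorem result (C : ∀ (G : Type) [Group G], Prop) (hC : Closed C) (hE : ExtClosed C)
    (hS : ∀ (G : Type) [Group G], Group.IsSolvable G → C G)
    (R I : Type) [CommRing R] [IsDomain R] [Fintype I] [DecidableEq I] [Nonempty I]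
    (σ : R →+* R) (M : Matrix I I R) (hσ : ∀ r, σ (σ r) = r) (hM : ∀ a b, σ (M a b) = M b a)
    (hA : Aniso σ M) (h2 : (2 : R) ≠ 0) (n : ℕ) :
    (∀ (x : Fin n → R) (hx : ∀ i, σ (x i) = x i) (Γ : Subgroup (UG (sM σ n) (hyp (MM M n)))),
      C (Γ.map (evM σ M x hx)) → C Γ) ∧
    (C (UG (sM σ n) (hyp (MM M n))) ↔ C (UG σ (hyp M))) :=
  ⟨mv_mem hC hE hS hσ hM hA h2 n, mv_iff' hC hE hS hσ hM hA h2 n⟩

end Pool.Agent.Results.MP_c13a79_gt.WittIndexOne
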